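import Pool.Agent.Lib.MP_688fd0_co.SQ4.H98.IfaceF

/-!
Type C1, row NDB: the cross block of a near effective reflection.

At every level mod `2 k` at which the reflection leads one level up (at the other levels it leads down) there are the classes
`ND`, one for every strand `y₀` of the sheet: between the cosets `y₀ EI` and `y₀ EI τ`.
-/

set_option autoImplicit false

namespace Pool.Agent.Lib.MP_688fd0_co.SQ4.CV

open Pool.Agent.Lib.MP_688fd0_co.OSF Pool.Agent.Lib.MP_688fd0_co.SQ2 Pool.Agent.Lib.MP_688fd0_co.SQ3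
open Pool.Agent.Lib.MP_688fd0_co.SQ4
open SQ2.V (Puz)

namespace H52

/-! ### The group `EI` -/

section grp

variable {Q : Type} [Group Q] {B : Lb.{0, 0} Q} {a b : B.L} {eps : Q →* ℤˣ} {D : Subgroup Q} {z : Q} {k : ℕ}
  (H : HypC B a b eps D z k)

include H

theorem eiD : EI B a b eps D z k ≤ D := by
  unfold EI
  rw [Subgroup.closure_le]
  rintro q ⟨m, _, n, t, ht, rfl⟩
  exact H.nD.conj_mem _ (H.near t ht) _

omit H in
theorem ei_conj {y : Q} (hy : ∀ q ∈ SI B a b eps D z k, y * q * y⁻¹ ∈ EI B a b eps D z k) {x : Q}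
    (hx : x ∈ EI B a b eps D z k) : y * x * y⁻¹ ∈ EI B a b eps D z k := by
  have hx' : x ∈ Subgroup.closure (SI B a b eps D z k) := hx
  induction hx' using Subgroup.closure_induction with
  | mem x h => exact hy x h
  | one => rw [mul_one, mul_inv_cancel]; exact Subgroup.one_mem _
  | mul x x' h1 h2 h h' =>
    have e1 : y * (x * x') * y⁻¹ = (y * x * y⁻¹) * (y * x' * y⁻¹) := by group
    rw [e1]
    exact Subgroup.mul_mem _ (h h1) (h' h2)
  | inv x h1 h =>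
    have e1 : y * x⁻¹ * y⁻¹ = (y * x * y⁻¹)⁻¹ := by group
    rw [e1]
    exact Subgroup.inv_mem _ (h h1)

omit H in
theorem ei_mZ {m : Q} (hm : m ∈ mZ B a b D z k) {x : Q} (hx : x ∈ EI B a b eps D z k) :
    m * x * m⁻¹ ∈ EI B a b eps D z k := by
  refine ei_conj (fun q hq => ?_) hx
  obtain ⟨m', hm', n, t, ht, rfl⟩ := hq
  refine Subgroup.subset_closure ⟨m * m', Subgroup.mul_mem _ hm hm', n, t, ht, ?_⟩
  group

theorem mZ_w (j : ℕ) {m : Q} (hm : m ∈ mZ B a b D z k) :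
    (B.q a * (B.q b)⁻¹) ^ j * m * ((B.q a * (B.q b)⁻¹) ^ j)⁻¹ ∈ mZ B a b D z k := by
  have h1 := mZ_conj H hm ((k - 1) * j)
  have h2 : (B.q a * (B.q b)⁻¹) ^ ((k - 1) * j) * (B.q a * (B.q b)⁻¹) ^ j = z ^ (k * j) := by
    rw [← pow_add]
    have h3 : (k - 1) * j + j = k * j := by
      obtain ⟨k', hk'⟩ : ∃ k', k = k' + 1 := ⟨k - 1, by have := H.kpos; omega⟩
      rw [hk', Nat.add_sub_cancel]
      ring
    rw [h3, pow_mul, H31.C_w_pow H, ← pow_mul]
  have h4 : Commute m z := H.cen _ (H.leD (mZ_le H hm))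
  set w := B.q a * (B.q b)⁻¹ with hw
  have h5 : w ^ j * m * (w ^ j)⁻¹ = (w ^ ((k - 1) * j))⁻¹ * ((w ^ ((k - 1) * j) * w ^ j) * m *
      (w ^ ((k - 1) * j) * w ^ j)⁻¹) * w ^ ((k - 1) * j) := by group
  rw [h5, h2, ← (h4.pow_right (k * j)).eq, mul_inv_cancel_right]
  exact h1

theorem ei_w (j : ℕ) {x : Q} (hx : x ∈ EI B a b eps D z k) :
    (B.q a * (B.q b)⁻¹) ^ j * x * ((B.q a * (B.q b)⁻¹) ^ j)⁻¹ ∈ EI B a b eps D z k := by
  refine ei_conj (fun q hq => ?_) hx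
  obtain ⟨m, hm, n, t, ht, rfl⟩ := hq
  refine Subgroup.subset_closure ⟨_, mZ_w H j hm, 2 * j + n, t, ht, ?_⟩
  rw [uC_add]
  group

/-- Conjugates by powers of `w` depend on the exponent mod `k`. -/
theorem w_mod {i i' : ℤ} (h : ((i : ℤ) : ZMod k) = (i' : ZMod k)) {x : Q} (hx : eps x = 1) :
    wC B a b ^ i * x * wC B a b ^ (-i) = wC B a b ^ i' * x * wC B a b ^ (-i') := by
  obtain ⟨j, hj⟩ := (ZMod.intCast_eq_intCast_iff_dvd_sub i' i k).1 h.symm
  have h1 : wC B a b ^ ((k : ℤ) * j) = z ^ ((k : ℤ) * j) := by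
    unfold wC
    rw [zpow_mul, zpow_natCast, H31.C_w_pow H, zpow_mul, zpow_natCast]
  have h2 : i = i' + (k : ℤ) * j := by rw [← hj]; ring
  have h3 : Commute x z := H.cen _ hx
  rw [h2, neg_add, zpow_add, zpow_add, h1, zpow_neg _ ((k : ℤ) * j), h1]
  have h4 : wC B a b ^ i' * z ^ ((k : ℤ) * j) * x * (wC B a b ^ (-i') * (z ^ ((k : ℤ) * j))⁻¹) =
      wC B a b ^ i' * (z ^ ((k : ℤ) * j) * x) * (wC B a b ^ (-i') * (z ^ ((k : ℤ) * j))⁻¹) := by group
  have h5 : Commute (wC B a b) z := H.cen _ (H31.C_eps_w H)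
  rw [h4, ← (h3.zpow_right ((k : ℤ) * j)).eq]
  have h6 := ((h5.zpow_left (-i')).zpow_right ((k : ℤ) * j)).inv_right.eq
  rw [h6]
  group

/-- An element whose conjugate by a power of `w` is in `EI`. -/
theorem ei_of_w (i : ℤ) {x : Q} (hx : eps x = 1) (h : wC B a b ^ i * x * wC B a b ^ (-i) ∈ EI B a b eps D z k) :
    x ∈ EI B a b eps D z k := by
  have hk := H.kpos
  have hkz : (0 : ℤ) < k := by exact_mod_cast hk
  obtain ⟨j, hj⟩ : ∃ j : ℕ, (j : ℤ) = (-i) % (k : ℤ) := ⟨((-i) % (k : ℤ)).toNat, by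
    rw [Int.toNat_of_nonneg (Int.emod_nonneg _ (by omega))]⟩
  have h1 := ei_w H j h
  have h2 : (B.q a * (B.q b)⁻¹) ^ j * (wC B a b ^ i * x * wC B a b ^ (-i)) * ((B.q a * (B.q b)⁻¹) ^ j)⁻¹ =
      wC B a b ^ ((j : ℤ) + i) * x * wC B a b ^ (-((j : ℤ) + i)) := by
    unfold wC
    rw [zpow_add, zpow_natCast, zpow_neg _ ((j : ℤ) + i), zpow_add, zpow_natCast, zpow_neg]
    group
  rw [h2, w_mod H (i' := 0) (by
    rw [hj]
    push_cast
    ring) hx] at h1
  simpa using h1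

omit H in
theorem mvC_even (j : ℕ) (s : B.L) : mvC (B.q a) (B.q b) (2 * j) (B.q s) =
    wC B a b ^ (j : ℤ) * sg B a s * wC B a b ^ (-(j : ℤ)) := by
  unfold mvC wC sg
  rw [uC_even, uC_odd, zpow_neg, zpow_natCast]
  group

omit H in
theorem mvC_odd (j : ℕ) (s : B.L) : mvC (B.q a) (B.q b) (2 * j + 1) (B.q (B.inv s)) =
    wC B a b ^ ((j : ℤ) + 1) * (sg B a s * wC B a b)⁻¹ * wC B a b ^ (-((j : ℤ) + 1)) := by
  unfold mvC wC sg
  rw [uC_odd, show 2 * j + 1 + 1 = 2 * (j + 1) by ring, uC_even, B.q_inv, zpow_neg,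
    show (j : ℤ) + 1 = ((j + 1 : ℕ) : ℤ) by push_cast; ring, zpow_natCast, pow_succ]
  group

end grp

/-! ### Words -/

section wd

variable {Q : Type} [Group Q] {B : Lb.{0, 0} Q} {a b : B.L} {eps : Q →* ℤˣ} {D : Subgroup Q} {z : Q} {k : ℕ}
  (H : HypC B a b eps D z k)

include H

theorem fin_PW (n n' : ℕ) (l : B.L) (ρ : Q) :
    B.fin ρ (PW H.up n l n') = ρ * (uC (B.q a) (B.q b) n * B.q l * (uC (B.q a) (B.q b) n')⁻¹) := by
  rw [← PW_fin H, ← fin_tr, mul_one]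

theorem vol_PW {F : Type} [CommRing F] {V : Ev B F} {c : F} (hn : ∀ x, V.e x (H.up.up x) = c) {n n' : ℕ} {l : B.L}
    {ρ ρ' : Q} (hρ : eps ρ = 1) (hρ' : eps ρ' = 1) (h : (H.up.U ^ n) ρ * B.q l = (H.up.U ^ n') ρ') :
    V.vol ρ (PW H.up n l n') = n * c + V.e ((H.up.U ^ n) ρ) l - n' * c := by
  classical
  have e1 : H.up.str n 1 = H.up.str n ρ := str_par H n (by rw [map_one, hρ])
  have e2 : H.up.str n' 1 = H.up.str n' ρ' := str_par H n' (by rw [map_one, hρ'])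
  unfold PW
  rw [e1, e2, V.vol_append, vol_strC hn, H.up.fin_str]
  show _ + (V.e ((H.up.U ^ n) ρ) l + V.vol ((H.up.U ^ n) ρ * B.q l) (B.rev (H.up.str n' ρ'))) = _
  rw [h, ← H.up.fin_str n' ρ', V.vol_rev, vol_strC hn]
  ring

end wd

/-! ### The block -/

/-- The rungs: level, class, strand. -/
abbrev RN {Q : Type} [Group Q] (B : Lb.{0, 0} Q) (a b : B.L) (eps : Q →* ℤˣ) (D : Subgroup Q) (z : Q) (k : ℕ)
    {S : Type} (g : S → Q) (v₀ : S) : Type :=
  Σ c : Fin k × {y₀ // Sh D (g v₀) (g y₀)}, {y // DN eps (B.q a) D (EI B a b eps D z k) g (c.2 : S) y}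

section blk

variable {S : Type} [Fintype S] {Q : Type} [Group Q] [DecidableEq Q] {B : Lb.{0, 0} Q} {a b : B.L} {eps : Q →* ℤˣ}
  {D : Subgroup Q} {z : Q} {k : ℕ} (H : HypC B a b eps D z k) {g : S → Q} (inj : Function.Injective g)

include H

theorem exists_blk (hg : DCl D g) (v₀ : S) (l : B.L) (κ : Fin k → ℕ) (hκ : ∀ i, κ i < 2 * k)
    (hl : ∀ i, VL B a b D (κ i + eeC eps (g v₀)) l)
    (hτ : ∀ i, mvC (B.q a) (B.q b) (κ i + eeC eps (g v₀)) (B.q l) ∉ EI B a b eps D z k) (wd : Fin k → List B.L)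
    (hfin : ∀ i ρ, eps ρ = 1 → B.fin ρ (wd i) = ρ * mvC (B.q a) (B.q b) (κ i + eeC eps (g v₀)) (B.q l))
    (hvol : ∀ (F : Type) [CommRing F] (V : Ev B F) (c : F), (∀ x, V.e x (H.up.up x) = c) → ∀ i ρ, eps ρ = 1 →
      V.vol ρ (wd i) = V.e ((H.up.U ^ (κ i + eeC eps (g v₀))) ρ) l - c) :
    ∃ X : ClsW H.up g inj (2 * k) (RN B a b eps D z k g v₀),
      ClsB H X (fun v => Sh D (g v₀) (g v) ∨ Sh D (g v₀) (g v))
        (fun A => (∀ r, A (X.x r) ↔ A (X.y r)) ∧ PlA H g (fun v => Sh D (g v₀) (g v) ∨ Sh D (g v₀) (g v)) A)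
        (fun r => wd r.1.1) (2 * k * (Fintype.card S) ^ 2 + 1) ∧
      (∀ r, X.x r = r.2) ∧ (∀ r, Sh D (g (X.x r)) (g (X.y r))) ∧
      ∀ r, rfC eps (B.q a) (g (X.y r)) =
        rfC eps (B.q a) (g (X.x r)) * mvC (B.q a) (B.q b) (κ r.1.1 + eeC eps (g v₀)) (B.q l) := by
  have hk2 : 0 < 2 * k := by have := H.kpos; omega
  have : NeZero (2 * k) := ⟨hk2.ne'⟩
  obtain ⟨t, ht⟩ := H.rot
  have hval : ∀ i, ((κ i : ℕ) : ZMod (2 * k)).val = κ i := fun i => ZMod.val_cast_of_lt (hκ i)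
  have hc : ∀ c : Fin k × {y₀ // Sh D (g v₀) (g y₀)},
      ∃ (P : ZMod (2 * k) → Equiv.Perm S) (σ : Equiv.Perm S)
      (X : ClsW H.up g inj (2 * k) {y // DN eps (B.q a) D (EI B a b eps D z k) g (c.2 : S) y}),
      IsN (z ^ k) ((κ c.1 : ℕ) : ZMod (2 * k)) P σ l (2 * k * (Fintype.card S) ^ 2 + 1) X ∧
      (∀ y, DN eps (B.q a) D (EI B a b eps D z k) g (c.2 : S) y → Sh D (g y) (g (σ y)) ∧
        rfC eps (B.q a) (g (σ y)) = rfC eps (B.q a) (g y) *
          mvC (B.q a) (B.q b) (κ c.1 + eeC eps (g v₀)) (B.q l)) ∧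
      (∀ i y, Sh D (g (c.2 : S)) (g y) → Sh D (g y) (g (P i y)) ∧ rfC eps (B.q a) (g (P i y)) =
        rfC eps (B.q a) (g y) * (uC (B.q a) (B.q b) (i.val + eeC eps (g y)) * B.q t *
          (uC (B.q a) (B.q b) (i.val + eeC eps (g y)))⁻¹)) ∧
      ∀ i y, ¬ Sh D (g (c.2 : S)) (g y) → P i y = y := by
    intro c
    have hee : eeC eps (g (c.2 : S)) = eeC eps (g v₀) := sh_ee H c.2.2
    refine exists_NDQ H (inj := inj) hg (E := EI B a b eps D z k) (r := t) (s := l)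
      (κ := ((κ c.1 : ℕ) : ZMod (2 * k))) (y₀ := (c.2 : S)) ht (fun n => Subgroup.subset_closure
        ⟨1, Subgroup.one_mem _, n, t, ht, by rw [one_mul]⟩) (by rw [hval, hee]; exact hl c.1)
      (τ := mvC (B.q a) (B.q b) (κ c.1 + eeC eps (g v₀)) (B.q l)) (by rw [hval, hee]) (hτ c.1)
      (fun x hx => ei_mZ (mvC_mZ H (hl c.1)) hx)
  choose P σ X hX hσ hP hPo using hc
  have hY : ∀ r : RN B a b eps D z k g v₀, Sh D (g v₀) (g ((X r.1).x r.2)) := by
    intro r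
    rw [(hX r.1).x]
    exact r.1.2.2.trans r.2.2.1
  have hxy : ∀ r : RN B a b eps D z k g v₀, Sh D (g ((X r.1).x r.2)) (g ((X r.1).y r.2)) := by
    intro r
    rw [(hX r.1).x, (hX r.1).y]
    exact (hσ r.1 _ r.2.2).1
  have hrf : ∀ r : RN B a b eps D z k g v₀, rfC eps (B.q a) (g ((X r.1).y r.2)) =
      rfC eps (B.q a) (g ((X r.1).x r.2)) * mvC (B.q a) (B.q b) (κ r.1.1 + eeC eps (g v₀)) (B.q l) := by
    intro r
    rw [(hX r.1).x, (hX r.1).y]
    exact (hσ r.1 _ r.2.2).2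
  have hAP : ∀ A : S → Prop, (∀ r, A ((sigW X).x r) ↔ A ((sigW X).y r)) →
      PlA H g (fun v => Sh D (g v₀) (g v) ∨ Sh D (g v₀) (g v)) A → ∀ c, (∀ i s, A s → A (P c i s)) ∧
        ∀ s, A s → A (σ c s) := by
    intro A h1 h2 c
    refine ⟨fun i s hs => ?_, fun s hs => ?_⟩
    · by_cases h3 : Sh D (g (c.2 : S)) (g s)
      · obtain ⟨h4, h5⟩ := hP c i s h3
        exact h2 s (P c i s) (Or.inl (c.2.2.trans h3)) h4 _
          ⟨1, Subgroup.one_mem _, _, t, ht, by rw [one_mul]⟩ h5 hs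
      · rw [hPo c i s h3]
        exact hs
    · by_cases h3 : DN eps (B.q a) D (EI B a b eps D z k) g (c.2 : S) s
      · have h4 : A ((X c).x ⟨s, h3⟩) ↔ A ((X c).y ⟨s, h3⟩) := h1 ⟨c, ⟨s, h3⟩⟩
        rw [(hX c).x, (hX c).y] at h4
        exact h4.1 hs
      · by_cases h4 : DN eps (B.q a) D (EI B a b eps D z k) g (c.2 : S) (σ c s)
        · have h5 : A ((X c).x ⟨σ c s, h4⟩) ↔ A ((X c).y ⟨σ c s, h4⟩) := h1 ⟨c, ⟨σ c s, h4⟩⟩
          rw [(hX c).x, (hX c).y] at h5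
          have h6 : σ c ((⟨σ c s, h4⟩ : {y // DN eps (B.q a) D (EI B a b eps D z k) g (c.2 : S) y}) : S) = s :=
            (hX c).invo s
          rw [h6] at h5
          exact h5.2 hs
        · rw [(hX c).out s h3 h4]
          exact hs
  refine ⟨sigW X, ?_, fun r => (hX r.1).x r.2, hxy, hrf⟩
  refine ⟨fun r => Or.inl (hY r), fun r => Or.inl ((hY r).trans (hxy r)), fun r => ?_, fun r => (hX r.1).H_le r.2,
    fun A hA => ?_, fun A hA F _ V c hV hz r hr s hs => ?_, fun F _ V c hV hz => ?_⟩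
  · rw [hfin _ _ (eps_rf H _)]
    exact (hrf r).symm
  · have h1 := fun c => (hX c).clo A (hAP A hA.1 hA.2 c).1 (hAP A hA.1 hA.2 c).2
    exact ⟨fun r hr => (h1 r.1).y r.2 hr, fun r hr => (h1 r.1).tau r.2 hr,
      fun r hr s hs => (h1 r.1).tok r.2 hr s hs⟩
  · exact (hX r.1).th A (hAP A hA.1 hA.2 r.1).1 (hAP A hA.1 hA.2 r.1).2 F V c hz.1 r.2 hr s hs
  · have h1 : ∀ r : RN B a b eps D z k g v₀, V.vol (rfC eps (B.q a) (g ((sigW X).x r))) (wd r.1.1) +
        c * ((eeC eps (g ((sigW X).y r)) : F) - (eeC eps (g ((sigW X).x r)) : F)) =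
        V.e ((H.up.U ^ ((κ r.1.1 : ℕ) : ZMod (2 * k)).val) (g r.2)) l - c := by
      intro r
      have h2 : eeC eps (g ((sigW X).y r)) = eeC eps (g ((sigW X).x r)) := sh_ee H (hxy r)
      have h3 : eeC eps (g (r.2 : S)) = eeC eps (g v₀) := sh_ee H (r.1.2.2.trans r.2.2.1)
      have h4 : (sigW X).x r = r.2 := (hX r.1).x r.2
      rw [h2, sub_self, mul_zero, add_zero, h4, hvol F V c hz.1 _ _ (eps_rf H _), hval,
        U_rf_n H (κ r.1.1) (g (r.2 : S)), h3, add_comm (κ _)]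
    exact ⟨fun r => by rw [h1]; exact ((hX r.1).vol F V c hV hz.1).cup r.2,
      fun r => by rw [h1]; exact ((hX r.1).vol F V c hV hz.1).cap r.2⟩

/-! ### Counting -/

include inj in
omit [DecidableEq Q] in
theorem card_RN (v₀ : S) : ∃ _ : Fintype (RN B a b eps D z k g v₀), Fintype.card (RN B a b eps D z k g v₀) ≤ k * k * k := by
  classical
  have hfinQ := H.fin
  have : Finite (EI B a b eps D z k) := inferInstance
  have : Finite D := inferInstance
  refine ⟨Fintype.ofFinite _, ?_⟩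
  rw [Fintype.card_eq_nat_card]
  have h1 : Nat.card D ≤ k := Nat.le_of_dvd H.kpos H.card
  have h2 : Nat.card (EI B a b eps D z k) ≤ Nat.card D := Nat.card_le_card_of_injective
    (Subgroup.inclusion (eiD H)) (Subgroup.inclusion_injective _)
  let φ : RN B a b eps D z k g v₀ → (Fin k × D) × EI B a b eps D z k := fun r =>
    ((r.1.1, ⟨(rfC eps (B.q a) (g v₀))⁻¹ * rfC eps (B.q a) (g (r.1.2 : S)), rf_mem H r.1.2.2⟩),
      ⟨(rfC eps (B.q a) (g (r.1.2 : S)))⁻¹ * rfC eps (B.q a) (g (r.2 : S)), r.2.2.2⟩)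
  have hφ : Function.Injective φ := by
    rintro ⟨⟨i, ⟨y₀, hy₀⟩⟩, ⟨y, hy⟩⟩ ⟨⟨i', ⟨y₀', hy₀'⟩⟩, ⟨y', hy'⟩⟩ h
    have h3 : i = i' := congrArg (fun p => p.1.1) h
    have h4 : (rfC eps (B.q a) (g v₀))⁻¹ * rfC eps (B.q a) (g y₀) =
        (rfC eps (B.q a) (g v₀))⁻¹ * rfC eps (B.q a) (g y₀') := congrArg (fun p => (p.1.2 : Q)) h
    have h5 : (rfC eps (B.q a) (g y₀))⁻¹ * rfC eps (B.q a) (g y) =
        (rfC eps (B.q a) (g y₀'))⁻¹ * rfC eps (B.q a) (g y') := congrArg (fun p => (p.2 : Q)) h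
    subst h3
    obtain rfl : y₀ = y₀' := strand_eq H inj (hy₀.symm.trans hy₀') (mul_left_cancel h4)
    obtain rfl : y = y' := strand_eq H inj (hy.1.symm.trans hy'.1) (mul_left_cancel h5)
    rfl
  have h3 := Nat.card_le_card_of_injective φ hφ
  rw [Nat.card_prod, Nat.card_prod, Nat.card_eq_fintype_card (α := Fin k), Fintype.card_fin] at h3
  exact h3.trans (Nat.mul_le_mul (Nat.mul_le_mul_left k h1) (h2.trans h1))

include inj in
omit [Fintype S] [DecidableEq Q] in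
theorem cnt (hg : DCl D g) (v₀ : S) (u : Fin k → S) (hu : ∀ i, Sh D (g v₀) (g (u i))) :
    {r : RN B a b eps D z k g v₀ | (r.2 : S) = u r.1.1}.ncard = k * Nat.card (EI B a b eps D z k) := by
  classical
  choose str hs1 hs2 using fun (v : S) (m : EI B a b eps D z k) => exists_strand H hg v (eiD H m.2)
  have hDN : ∀ v (e : EI B a b eps D z k), DN eps (B.q a) D (EI B a b eps D z k) g (str v e) v := by
    intro v e
    refine ⟨(hs1 v e).symm, ?_⟩
    rw [hs2]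
    have h1 : (rfC eps (B.q a) (g v) * (e : Q))⁻¹ * rfC eps (B.q a) (g v) = (e : Q)⁻¹ := by group
    rw [h1]
    exact Subgroup.inv_mem _ e.2
  let φ : Fin k × EI B a b eps D z k → RN B a b eps D z k g v₀ := fun p =>
    ⟨(p.1, ⟨str (u p.1) p.2, (hu p.1).trans (hs1 _ _)⟩), ⟨u p.1, hDN _ _⟩⟩
  have hφ : Function.Injective φ := by
    rintro ⟨i, e⟩ ⟨i', e'⟩ h
    have h1 : i = i' := congrArg (fun r => r.1.1) h
    have h2 : str (u i) e = str (u i') e' := congrArg (fun r => (r.1.2 : S)) h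
    subst h1
    have h3 : rfC eps (B.q a) (g (u i)) * (e : Q) = rfC eps (B.q a) (g (u i)) * (e' : Q) := by
      rw [← hs2, ← hs2, h2]
    rw [Subtype.ext (mul_left_cancel h3)]
  have hset : {r : RN B a b eps D z k g v₀ | (r.2 : S) = u r.1.1} = φ '' Set.univ := by
    ext r
    constructor
    · obtain ⟨⟨i, ⟨y₀, hy₀⟩⟩, ⟨y, hy⟩⟩ := r
      intro h
      have h1 : y = u i := h
      subst h1
      obtain ⟨e, he⟩ : ∃ e : EI B a b eps D z k, str (u i) e = y₀ := by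
        refine ⟨⟨(rfC eps (B.q a) (g (u i)))⁻¹ * rfC eps (B.q a) (g y₀), ?_⟩, ?_⟩
        · have h2 := Subgroup.inv_mem _ hy.2
          have h3 : ((rfC eps (B.q a) (g y₀))⁻¹ * rfC eps (B.q a) (g (u i)))⁻¹ =
              (rfC eps (B.q a) (g (u i)))⁻¹ * rfC eps (B.q a) (g y₀) := by group
          rw [h3] at h2
          exact h2
        · refine strand_eq H inj ((hs1 _ _).symm.trans hy.1.symm) ?_
          rw [hs2, mul_inv_cancel_left]
      subst he
      exact ⟨(i, e), Set.mem_univ _, rfl⟩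
    · rintro ⟨p, _, rfl⟩
      rfl
  rw [hset, Set.ncard_image_of_injective _ hφ, Set.ncard_univ, Nat.card_prod, Nat.card_eq_fintype_card (α := Fin k),
    Fintype.card_fin]

end blk

end H52

open H52 in
theorem ndb : NdbS := by
  intro S _ Q _ _ B a b eps D z k H g inj hg s n v₀ hn hs hD hE
  classical
  have hk := H.kpos
  set ε₀ := eeC eps (g v₀) with hε₀
  have hε1 : ε₀ ≤ 1 := by rw [hε₀]; unfold eeC; split_ifs <;> omega
  -- `k` is at least 2
  have hk2 : 2 ≤ k := by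
    by_contra hcon
    have h1 : k = 1 := by omega
    have h2 : Nat.card D = 1 := Nat.dvd_one.1 (h1 ▸ H.card)
    have h3 : D = ⊥ := Subgroup.card_eq_one.1 h2
    apply hE
    rw [h3, Subgroup.mem_bot] at hD
    rw [hD]
    exact Subgroup.one_mem _
  obtain ⟨hFR, hcard⟩ := card_RN H inj v₀
  have heD : ∀ x ∈ D, eps x = 1 := fun x hx => H.leD hx
  have heσ : eps (sg B a s) = 1 := by
    unfold sg
    rw [map_mul, map_inv, hs, H.ea]
    decide
  -- the strands with a given move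
  have hdeg : ∀ (X : ClsW H.up g inj (2 * k) (RN B a b eps D z k g v₀)) (τ : Fin k → Q), (∀ i, τ i ∈ D) →
      (∀ i, τ i ∉ EI B a b eps D z k) → (∀ r, X.x r = r.2) → (∀ r, Sh D (g (X.x r)) (g (X.y r))) →
      (∀ r, rfC eps (B.q a) (g (X.y r)) = rfC eps (B.q a) (g (X.x r)) * τ r.1.1) → ∀ v, Sh D (g v₀) (g v) →
      {r | v = X.x r ∨ v = X.y r}.ncard = 2 * k * Nat.card (EI B a b eps D z k) := by
    intro X τ hτD hτE hx hsh hrf v hv
    choose u hu1 hu2 using fun i => exists_strand H hg v (D.inv_mem (hτD i))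
    have h1 : {r | v = X.x r} = {r : RN B a b eps D z k g v₀ | (r.2 : S) = (fun _ => v) r.1.1} := by
      ext r
      show v = X.x r ↔ (r.2 : S) = v
      rw [hx]
      exact eq_comm
    have h2 : {r | v = X.y r} = {r : RN B a b eps D z k g v₀ | (r.2 : S) = u r.1.1} := by
      ext r
      show v = X.y r ↔ (r.2 : S) = u r.1.1
      constructor
      · intro h
        refine strand_eq H inj ?_ ?_
        · rw [← hx]
          exact ((hsh r).trans (by rw [← h]; exact Sh.refl _)).trans (hu1 r.1.1)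
        · rw [hu2, ← hx, h, hrf, mul_inv_cancel_right]
      · intro h
        refine strand_eq H inj ?_ ?_
        · have h3 := hsh r
          rw [hx, h] at h3
          exact (hu1 r.1.1).trans h3
        · rw [hrf, hx, h, hu2, inv_mul_cancel_right]
    have h3 : {r | v = X.x r ∨ v = X.y r} = {r | v = X.x r} ∪ {r | v = X.y r} := rfl
    have h4 : Disjoint {r | v = X.x r} {r | v = X.y r} := by
      rw [Set.disjoint_left]
      intro r h5 h6
      have h5' : v = X.x r := h5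
      have h6' : v = X.y r := h6
      have h7 := hrf r
      rw [← h5', ← h6'] at h7
      apply hτE r.1.1
      have h8 : τ r.1.1 = 1 := (mul_eq_left.1 h7.symm)
      rw [h8]
      exact Subgroup.one_mem _
    rw [h3, Set.ncard_union_eq h4 (Set.toFinite _) (Set.toFinite _), h1, h2,
      cnt H inj hg v₀ (fun _ => v) (fun _ => hv), cnt H inj hg v₀ u (fun i => hv.trans (hu1 i))]
    ring
  rcases hn with rfl | rfl
  · -- case 0
    rw [zpow_zero, inv_one, mul_one] at hD hE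
    have hτ : ∀ i : Fin k, mvC (B.q a) (B.q b) (2 * i + ε₀ + ε₀) (B.q s) =
        wC B a b ^ ((i : ℤ) + ε₀) * sg B a s * wC B a b ^ (-((i : ℤ) + ε₀)) := by
      intro i
      rw [show 2 * (i : ℕ) + ε₀ + ε₀ = 2 * (i + ε₀) by ring, mvC_even]
      push_cast
      rfl
    have hl : ∀ i : Fin k, VL B a b D (2 * i + ε₀ + ε₀) s := by
      intro i
      unfold VL
      rw [if_pos (by omega)]
      have h1 := mem_conj H hD (B.q a)⁻¹
      have h2 : (B.q a)⁻¹ * sg B a s * (B.q a)⁻¹⁻¹ = (B.q a)⁻¹ * B.q s := by unfold sg; group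
      rw [h2] at h1
      exact h1
    have hτE : ∀ i : Fin k, mvC (B.q a) (B.q b) (2 * i + ε₀ + ε₀) (B.q s) ∉ EI B a b eps D z k := by
      intro i h
      rw [hτ] at h
      exact hE (ei_of_w H _ heσ h)
    obtain ⟨X, hB, hx, hsh, hrf⟩ := exists_blk H inj hg v₀ s (fun i => 2 * i + ε₀) (fun i => by have := i.2; omega) hl
      hτE (fun i => CW H.up (i + ε₀) (i + ε₀) s) (fun i ρ hρ => by
        show B.fin ρ (PW H.up (2 * (i + ε₀)) s (2 * (i + ε₀) + 1)) = _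
        rw [fin_PW H]
        unfold mvC
        rw [show 2 * (i : ℕ) + ε₀ + ε₀ = 2 * (i + ε₀) by ring]) (fun F _ V c hc i ρ hρ => by
        show V.vol ρ (PW H.up (2 * (i + ε₀)) s (2 * (i + ε₀) + 1)) = _
        have h1 : 2 * (i : ℕ) + ε₀ + ε₀ = 2 * (i + ε₀) := by ring
        have h2 := let_step H hρ (hl i) (m := 2 * (i + ε₀)) (q := 0) (by rw [h1]; rfl)
        rw [vol_PW H hc hρ (by rw [map_mul, hρ, heD _ (mvC_mem H (hl i)), one_mul]) h2, h1]
        push_cast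
        ring)
    refine ⟨RN B a b eps D z k g v₀, hFR, X, fun r => CW H.up (r.1.1 + ε₀) (r.1.1 + ε₀) s, hcard, hB,
      fun r => Or.inl ⟨?_, ?_, (r.1.1 : ℤ) + ε₀, 1, rfl, ?_⟩, fun v v' h => ?_, ⟨ε₀, ε₀, by rw [sub_self], fun v hv e he => ?_⟩,
      fun v hv => hdeg X _ (fun i => mvC_mem H (hl i)) hτE hx hsh hrf v (hv.elim id id), fun r h => ?_⟩
    · show Sh D (g v₀) (g (X.x r))
      rw [hx]
      exact r.1.2.2.trans r.2.2.1
    · show Sh D (g v₀) (g (X.y r))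
      refine Sh.trans ?_ (hsh r)
      rw [hx]
      exact r.1.2.2.trans r.2.2.1
    · rw [hrf, zpow_zero, mul_one, mul_one]
      show _ * mvC (B.q a) (B.q b) (2 * r.1.1 + ε₀ + ε₀) (B.q s) = _
      rw [hτ]
    · obtain ⟨h1, h2, i, m, hm, h3⟩ := h
      rw [Set.mem_singleton_iff] at hm
      rw [hm, zpow_zero, mul_one, mul_one] at h3
      have h4 : ∃ i' : Fin k, (((i' : ℤ) + ε₀ : ℤ) : ZMod k) = ((i : ℤ) : ZMod k) := by
        have : NeZero k := ⟨hk.ne'⟩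
        refine ⟨⟨(((i : ℤ) - ε₀ : ℤ) : ZMod k).val, ZMod.val_lt _⟩, ?_⟩
        push_cast
        rw [ZMod.natCast_zmod_val]
        ring
      obtain ⟨i', hi'⟩ := h4
      refine ⟨⟨(i', ⟨v, h1⟩), ⟨v, Sh.refl _, by rw [inv_mul_cancel]; exact Subgroup.one_mem _⟩⟩, Or.inl ⟨hx _, ?_⟩⟩
      refine strand_eq H inj ?_ ?_
      · have h5 := hsh ⟨(i', ⟨v, h1⟩), ⟨v, Sh.refl _, by rw [inv_mul_cancel]; exact Subgroup.one_mem _⟩⟩
        rw [hx] at h5
        exact (h5.symm.trans h1.symm).trans h2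
      · rw [hrf, hx, h3, ← w_mod H hi' heσ]
        show _ * mvC (B.q a) (B.q b) (2 * i' + ε₀ + ε₀) (B.q s) = _
        rw [hτ]
    · refine ⟨⟨(⟨e, by omega⟩, ⟨v, hv⟩), ⟨v, Sh.refl _, by rw [inv_mul_cancel]; exact Subgroup.one_mem _⟩⟩,
        Or.inl ⟨hx _, ?_⟩⟩
      show CW H.up (e + ε₀) (e + ε₀) s = _
      rw [add_comm e]
    · have h1 := h.2
      rw [hrf, inv_mul_cancel_left] at h1
      exact hτE _ h1
  · -- case -1
    rw [zpow_neg_one, inv_inv] at hD hE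
    have heσw : eps (sg B a s * wC B a b) = 1 := heD _ hD
    have hexp : ∀ i : Fin k, 2 * (i : ℕ) + 1 - ε₀ + ε₀ = 2 * i + 1 := fun i => by omega
    have hτ : ∀ i : Fin k, mvC (B.q a) (B.q b) (2 * i + 1 - ε₀ + ε₀) (B.q (B.inv s)) =
        wC B a b ^ ((i : ℤ) + 1) * (sg B a s * wC B a b)⁻¹ * wC B a b ^ (-((i : ℤ) + 1)) := by
      intro i
      rw [hexp, mvC_odd]
    have hl : ∀ i : Fin k, VL B a b D (2 * i + 1 - ε₀ + ε₀) (B.inv s) := by
      intro i
      rw [hexp]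
      unfold VL
      rw [if_neg (by omega), B.q_inv, inv_inv]
      have h1 := D.inv_mem hD
      have h2 : (sg B a s * wC B a b)⁻¹ = B.q b * (B.q s)⁻¹ := by
        unfold sg wC
        group
      rw [h2] at h1
      exact h1
    have hτE : ∀ i : Fin k, mvC (B.q a) (B.q b) (2 * i + 1 - ε₀ + ε₀) (B.q (B.inv s)) ∉ EI B a b eps D z k := by
      intro i h
      rw [hτ] at h
      have h1 := ei_of_w H _ (by rw [map_inv, heσw, inv_one]) h
      have h2 := Subgroup.inv_mem _ h1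
      rw [inv_inv] at h2
      exact hE h2
    have hstep : ∀ (i : Fin k) (ρ : Q), eps ρ = 1 → (H.up.U ^ (2 * (i : ℕ) + 1)) ρ * B.q (B.inv s) =
        (H.up.U ^ (2 * ((i : ℕ) + 1))) (ρ * mvC (B.q a) (B.q b) (2 * i + 1 - ε₀ + ε₀) (B.q (B.inv s))) := by
      intro i ρ hρ
      exact let_step H hρ (hl i) (m := 2 * (i : ℕ) + 1) (q := 0) (by rw [hexp]; rfl)
    have hstep' : ∀ (i : Fin k) (ρ : Q), eps ρ = 1 → (H.up.U ^ (2 * ((i : ℕ) + 1)))
        (ρ * mvC (B.q a) (B.q b) (2 * i + 1 - ε₀ + ε₀) (B.q (B.inv s))) * B.q s = (H.up.U ^ (2 * (i : ℕ) + 1)) ρ := by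
      intro i ρ hρ
      rw [← hstep i ρ hρ, B.q_inv, inv_mul_cancel_right]
    have hfin' : ∀ (i : Fin k) (ρ : Q), eps ρ = 1 → B.fin
        (ρ * mvC (B.q a) (B.q b) (2 * i + 1 - ε₀ + ε₀) (B.q (B.inv s))) (CW H.up (i + 1) i s) = ρ := by
      intro i ρ hρ
      show B.fin _ (PW H.up (2 * (i + 1)) s (2 * i + 1)) = _
      rw [fin_PW H, hexp]
      unfold mvC
      rw [B.q_inv]
      show ρ * (uC (B.q a) (B.q b) (2 * i + 1) * (B.q s)⁻¹ * (uC (B.q a) (B.q b) (2 * (i + 1)))⁻¹) *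
        (uC (B.q a) (B.q b) (2 * (i + 1)) * B.q s * (uC (B.q a) (B.q b) (2 * i + 1))⁻¹) = ρ
      group
    obtain ⟨X, hB, hx, hsh, hrf⟩ := exists_blk H inj hg v₀ (B.inv s) (fun i => 2 * i + 1 - ε₀)
      (fun i => by have := i.2; omega) hl
      hτE (fun i => B.rev (CW H.up (i + 1) i s)) (fun i ρ hρ => by
        conv_lhs => rw [← hfin' i ρ hρ]
        rw [fin_rev]) (fun F _ V c hc i ρ hρ => by
        have h1 : eps (ρ * mvC (B.q a) (B.q b) (2 * i + 1 - ε₀ + ε₀) (B.q (B.inv s))) = 1 := by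
          rw [map_mul, hρ, heD _ (mvC_mem H (hl i)), one_mul]
        conv_lhs => rw [← hfin' i ρ hρ]
        rw [V.vol_rev]
        have h2 := vol_PW H hc (n := 2 * ((i : ℕ) + 1)) (n' := 2 * (i : ℕ) + 1) (l := s) h1 hρ (hstep' i ρ hρ)
        have h3 : V.vol (ρ * mvC (B.q a) (B.q b) (2 * i + 1 - ε₀ + ε₀) (B.q (B.inv s))) (CW H.up (i + 1) i s) = _ := h2
        have h4 := V.e_inv ((H.up.U ^ (2 * ((i : ℕ) + 1)))
          (ρ * mvC (B.q a) (B.q b) (2 * i + 1 - ε₀ + ε₀) (B.q (B.inv s)))) s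
        rw [hstep' i ρ hρ] at h4
        have h5 : V.e ((H.up.U ^ (2 * (i : ℕ) + 1 - ε₀ + ε₀)) ρ) (B.inv s) = V.e ((H.up.U ^ (2 * (i : ℕ) + 1)) ρ)
          (B.inv s) := by rw [hexp]
        show -_ = V.e ((H.up.U ^ (2 * (i : ℕ) + 1 - ε₀ + ε₀)) ρ) (B.inv s) - c
        rw [h3, h5, h4]
        generalize V.e ((H.up.U ^ (2 * ((i : ℕ) + 1)))
          (ρ * mvC (B.q a) (B.q b) (2 * i + 1 - ε₀ + ε₀) (B.q (B.inv s)))) s = E
        push_cast
        ring)
    refine ⟨RN B a b eps D z k g v₀, hFR, X, fun r => B.rev (CW H.up (r.1.1 + 1) r.1.1 s), hcard, hB,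
      fun r => Or.inr ⟨?_, ?_, (r.1.1 : ℤ) + 1, 1, rfl, ?_⟩, fun v v' h => ?_, ⟨1, 0, by norm_num, fun v hv e he => ?_⟩,
      fun v hv => hdeg X _ (fun i => mvC_mem H (hl i)) hτE hx hsh hrf v (hv.elim id id), fun r h => ?_⟩
    · show Sh D (g v₀) (g (X.y r))
      refine Sh.trans ?_ (hsh r)
      rw [hx]
      exact r.1.2.2.trans r.2.2.1
    · show Sh D (g v₀) (g (X.x r))
      rw [hx]
      exact r.1.2.2.trans r.2.2.1
    · rw [hrf, mul_one]
      show _ = rfC eps (B.q a) (g (X.x r)) * mvC (B.q a) (B.q b) (2 * r.1.1 + 1 - ε₀ + ε₀) (B.q (B.inv s)) * _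
      rw [hτ, zpow_neg_one, zpow_neg]
      group
    · obtain ⟨h1, h2, i, m, hm, h3⟩ := h
      rw [Set.mem_singleton_iff] at hm
      rw [hm, zpow_neg_one, mul_one] at h3
      have h4 : ∃ i' : Fin k, (((i' : ℤ) + 1 : ℤ) : ZMod k) = ((i : ℤ) : ZMod k) := by
        have : NeZero k := ⟨hk.ne'⟩
        refine ⟨⟨(((i : ℤ) - 1 : ℤ) : ZMod k).val, ZMod.val_lt _⟩, ?_⟩
        push_cast
        rw [ZMod.natCast_zmod_val]
        ring
      obtain ⟨i', hi'⟩ := h4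
      have h5 : rfC eps (B.q a) (g v) = rfC eps (B.q a) (g v') *
          (wC B a b ^ i * (sg B a s * wC B a b)⁻¹ * wC B a b ^ (-i)) := by
        have h6 : rfC eps (B.q a) (g v') = rfC eps (B.q a) (g v) * (wC B a b ^ i * sg B a s * wC B a b ^ (-i)) *
            wC B a b := by
          rw [← h3, inv_mul_cancel_right]
        rw [h6, zpow_neg]
        have h7 : (wC B a b ^ i)⁻¹ * wC B a b = wC B a b * (wC B a b ^ i)⁻¹ :=
          ((Commute.refl (wC B a b)).zpow_left i).inv_left.eq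
        have h8 : wC B a b ^ i * sg B a s * (wC B a b ^ i)⁻¹ * wC B a b =
            wC B a b ^ i * (sg B a s * wC B a b) * (wC B a b ^ i)⁻¹ := by
          rw [mul_assoc _ (wC B a b ^ i)⁻¹, h7]
          group
        rw [mul_assoc (rfC eps (B.q a) (g v)), h8]
        group
      refine ⟨⟨(i', ⟨v', h2⟩), ⟨v', Sh.refl _, by rw [inv_mul_cancel]; exact Subgroup.one_mem _⟩⟩, Or.inr ⟨hx _, ?_⟩⟩
      refine strand_eq H inj ?_ ?_
      · have h6 := hsh ⟨(i', ⟨v', h2⟩), ⟨v', Sh.refl _, by rw [inv_mul_cancel]; exact Subgroup.one_mem _⟩⟩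
        rw [hx] at h6
        exact (h6.symm.trans h2.symm).trans h1
      · rw [hrf, hx, h5, ← w_mod H hi' (by rw [map_inv, heσw, inv_one])]
        show _ * mvC (B.q a) (B.q b) (2 * i' + 1 - ε₀ + ε₀) (B.q (B.inv s)) = _
        rw [hτ]
    · -- the strand `y r`
      have hτD : mvC (B.q a) (B.q b) (2 * e + 1 - ε₀ + ε₀) (B.q (B.inv s)) ∈ D :=
        mvC_mem H (hl ⟨e, by omega⟩)
      obtain ⟨u, hu1, hu2⟩ := exists_strand H hg v (D.inv_mem hτD)
      refine ⟨⟨(⟨e, by omega⟩, ⟨u, Sh.trans hv hu1⟩), ⟨u, Sh.refl _, by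
        rw [inv_mul_cancel]; exact Subgroup.one_mem _⟩⟩, Or.inr ⟨?_, ?_⟩⟩
      · refine strand_eq H inj ?_ ?_
        · have h6 := hsh ⟨(⟨e, by omega⟩, ⟨u, Sh.trans hv hu1⟩), ⟨u, Sh.refl _, by
            rw [inv_mul_cancel]; exact Subgroup.one_mem _⟩⟩
          rw [hx] at h6
          exact h6.symm.trans hu1.symm
        · rw [hrf, hx]
          show rfC eps (B.q a) (g u) * mvC (B.q a) (B.q b) (2 * e + 1 - ε₀ + ε₀) (B.q (B.inv s)) = _
          rw [hu2, inv_mul_cancel_right]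
      · show B.rev (CW H.up (e + 1) e s) = _
        rw [add_comm e, zero_add]
    · have h1 := h.2
      rw [hrf, inv_mul_cancel_left] at h1
      exact hτE _ h1

end Pool.Agent.Lib.MP_688fd0_co.SQ4.CV
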